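import Pool.Agent.H17.Mix.Act
import Pool.Agent.H55.MX.Main
import Pool.Agent.H55.MX.ThreeMain

/-!
# Uniform distributions on finite groups and transitive sets as products of simple steps

The question (Q1 of MP_892d82_al) is whether every finite group without nontrivial quotients of odd
order is mixable. The theorem below contains the answer (yes, and conversely) in the stronger form
that all parameters `p_i` are `1/2` or arbitrarily small, as the first part, and with prescribed
elements `g_i`, as the second part, and extends it to all transitive actions, to all sets of primes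
in place of `{2}`, to steps which are uniform on subgroups, and to steps with three values (which
suffice for every finite group). These extensions follow from a criterion for arbitrary families of
steps that contain the small lazy steps. The parts with prescribed elements are proved in
`Pool.Agent.H55.MX`.
-/

set_option autoImplicit false

namespace Pool.Agent.Results.MP_892d82_al.UniformAsProduct

open Pool.Agent.H17.Mix

universe u v

/-- Mixability. A finite group without nontrivial quotients of odd order is mixable, even with all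
parameters `1/2` or at most `ε`; and a mixable group has no nontrivial quotient of odd order. -/
def LazySteps : Prop :=
  ∀ (G : Type u) [Group G] [Fintype G],
    (TwoPrimeSimple G ↔ Mixable G (Set.Icc 0 1)) ∧
    ∀ ε : ℝ, 0 < ε → (TwoPrimeSimple G → Mixable G (Set.Icc 0 ε ∪ {1 / 2}))

/-- Prescribed elements: if `T` is closed under powers, the uniform distribution on `G` is a product
of lazy steps with elements in `T` if and only if `T` generates `G` and the elements of `T` of
`2`-power order generate `G` as a normal subgroup. -/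
def LazyStepsIn : Prop :=
  ∀ (G : Type u) [Group G] [Fintype G] (T : Set G), (∀ t ∈ T, ∀ k : ℕ, t ^ k ∈ T) →
    (uniform G ∈ Submonoid.closure {x | ∃ t ∈ T, ∃ q ∈ Set.Icc (0 : ℝ) 1, x = lazy t q} ↔
      Subgroup.closure T = ⊤ ∧
        Subgroup.normalClosure {t | t ∈ T ∧ ∃ k : ℕ, t ^ 2 ^ k = 1} = ⊤)

/-- The random image of a point of a transitive finite `G`-set `X` can be made uniform if and only
if every normal subgroup of odd index is transitive; again small parameters and `1/2` suffice. -/
def LazyStepsOnSets : Prop :=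
  ∀ (G : Type u) [Group G] [Fintype G] (X : Type v) [Fintype X] [MulAction G X]
    [MulAction.IsPretransitive G X] (x₀ : X) (ε : ℝ), 0 < ε → ε ≤ 1 →
    ((∀ N : Subgroup G, N.Normal → Odd N.index → ∀ y : X, ∃ n ∈ N, n • x₀ = y) ↔
      ∃ l : List (G × ℝ), (∀ x ∈ l, x.2 ∈ Set.Icc (0 : ℝ) 1) ∧
        ∀ y, law ((l.map fun x => lazy x.1 x.2).prod) x₀ y = 1 / (Fintype.card X : ℝ)) ∧
    ((∀ N : Subgroup G, N.Normal → Odd N.index → ∀ y : X, ∃ n ∈ N, n • x₀ = y) ↔
      ∃ l : List (G × ℝ), (∀ x ∈ l, x.2 ∈ Set.Icc 0 ε ∪ {1 / 2}) ∧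
        ∀ y, law ((l.map fun x => lazy x.1 x.2).prod) x₀ y = 1 / (Fintype.card X : ℝ))

/-- The criterion: if `F` contains all lazy steps with small parameter and all its members have
total mass one, then the uniform distribution is a product of members of `F` if and only if on
every nontrivial minimal left ideal of the group algebra some member of `F` is not injective. -/
def Criterion : Prop :=
  ∀ (G : Type u) [Group G] [Fintype G] (F : Set (MonoidAlgebra ℝ G)) (ε : ℝ), 0 < ε →
    (∀ (g : G) (q : ℝ), 0 ≤ q → q ≤ ε → lazy g q ∈ F) → (∀ x ∈ F, ∑ g, x.coeff g = 1) →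
    (uniform G ∈ Submonoid.closure F ↔
      ∀ L : Submodule (MonoidAlgebra ℝ G) (MonoidAlgebra ℝ G),
        IsSimpleModule (MonoidAlgebra ℝ G) L → (∃ g : G, ∃ v ∈ L, MonoidAlgebra.of ℝ G g * v ≠ v) →
        ∃ x ∈ F, ∃ v ∈ L, v ≠ 0 ∧ x * v = 0)

/-- Sets of primes: lazy steps with parameter at most `ε` and the laws of `g ^ J`, `J` uniform on
`0, ..., p - 1`, `p ∈ π`, have the uniform distribution on `G` as a product if and only if `G` has no nontrivial quotient of order prime to all `p ∈ π`; the same for transitive `G`-sets. -/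
def StepsOfPrimeLength : Prop :=
  ∀ (G : Type u) [Group G] [Fintype G] (π : Set ℕ), (∀ p ∈ π, p.Prime) → ∀ ε : ℝ, 0 < ε →
    ε < 1 / 2 →
    (uniform G ∈ Submonoid.closure (PrimeSteps G π ε) ↔
      ∀ N : Subgroup G, N.Normal → (∀ p ∈ π, ¬ p ∣ N.index) → N = ⊤) ∧
    ∀ (X : Type v) [Fintype X] [MulAction G X] [MulAction.IsPretransitive G X] (x₀ : X),
      ((∃ s ∈ Submonoid.closure (PrimeSteps G π ε), ∀ y, law s x₀ y = 1 / (Fintype.card X : ℝ)) ↔
        ∀ N : Subgroup G, N.Normal → (∀ p ∈ π, ¬ p ∣ N.index) → ∀ y : X, ∃ n ∈ N, n • x₀ = y)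

/-- Lazy steps with parameter at most `ε` and the uniform distributions on the subgroups in `S` have
the uniform distribution on `G` as a product if and only if the normal closure of the union of the
members of `S` is `G`. -/
def StepsOnSubgroups : Prop :=
  ∀ (G : Type u) [Group G] [Fintype G] (S : Set (Subgroup G)) (ε : ℝ), 0 < ε → ε < 1 / 2 →
    (uniform G ∈ Submonoid.closure (SubgroupSteps G S ε) ↔
      Subgroup.normalClosure (⋃ H ∈ S, (H : Set G)) = ⊤)

/-- Three values suffice for every finite group: if `T` is closed under powers, the uniform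
distribution on `G` is a product of laws on `e`, `t`, `t⁻¹` with `t` in `T` if and only if `T`
generates `G`; and lazy steps with parameter at most `ε` together with the symmetric steps
`(1 - 2t) e + t h + t h⁻¹`, `0 ≤ t ≤ 1/2`, always suffice. -/
def ThreeValues : Prop :=
  ∀ (G : Type u) [Group G] [Fintype G],
    (∀ T : Set G, (∀ t ∈ T, ∀ k : ℕ, t ^ k ∈ T) →
      (uniform G ∈ Submonoid.closure {x : MonoidAlgebra ℝ G | ∃ t ∈ T, ∃ a b c : ℝ,
        0 ≤ a ∧ 0 ≤ b ∧ 0 ≤ c ∧ a + b + c = 1 ∧
        x = a • 1 + b • MonoidAlgebra.of ℝ G t + c • MonoidAlgebra.of ℝ G t⁻¹} ↔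
      Subgroup.closure T = ⊤)) ∧
    ∀ ε : ℝ, 0 < ε → uniform G ∈ Submonoid.closure {x : MonoidAlgebra ℝ G |
      (∃ (g : G) (q : ℝ), 0 ≤ q ∧ q ≤ ε ∧ x = lazy g q) ∨
      ∃ (h : G) (t : ℝ), 0 ≤ t ∧ t ≤ 1 / 2 ∧ x = symm h t}

theorem result : LazySteps.{u} ∧ LazyStepsIn.{u} ∧ LazyStepsOnSets.{u, v} ∧ Criterion.{u} ∧
    StepsOfPrimeLength.{u, v} ∧ StepsOnSubgroups.{u} ∧ ThreeValues.{u} := by
  refine ⟨fun G _ _ => ⟨⟨fun h => ?_, twoPrimeSimple_of_mixable⟩, fun ε hε h =>
    mixable_of_twoPrimeSimple h ε hε⟩, fun G _ _ T hT => Pool.Agent.H55.MX.uniform_iff T hT,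
    fun G _ _ X _ _ _ x₀ ε hε hε1 => ⟨?_, ?_⟩,
    fun G _ _ F ε hε hF hm => criterion hε hF hm, fun G _ _ π hπ ε hε h2 =>
    ⟨primeSteps π hπ ε hε h2, fun X _ _ _ x₀ => primeSteps_transitive π hπ ε hε h2 x₀⟩,
    fun G _ _ S ε hε h2 => subgroupSteps S ε hε h2,
    fun G _ _ => ⟨fun T hT => Pool.Agent.H55.MX.three_iff T hT, fun ε hε => three ε hε⟩⟩
  · obtain ⟨l, hl, h1⟩ := mixable_of_twoPrimeSimple h 1 one_pos
    refine ⟨l, fun x hx => ?_, h1⟩
    rcases hl x hx with h2 | h2
    · exact h2
    · rw [Set.mem_singleton_iff.1 h2]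
      norm_num
  · exact (lazyHalf_transitive x₀ (Set.Icc 0 1) subset_rfl (by norm_num) 1 one_pos
      subset_rfl).symm
  · refine (lazyHalf_transitive x₀ (Set.Icc 0 ε ∪ {1 / 2}) ?_ (by simp) ε hε
      Set.subset_union_left).symm
    rintro x (h | h)
    · exact ⟨h.1, h.2.trans hε1⟩
    · rw [Set.mem_singleton_iff.1 h]
      norm_num

end Pool.Agent.Results.MP_892d82_al.UniformAsProduct
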